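import Mathlib
import Pool.Agent.H7.OPP.Stmts

/-!
# OPP, module NPOS: pointwise positive matrices over `AA` are of the form `C* C`
-/

set_option autoImplicit false

namespace Pool.OPP

open scoped ComplexConjugate

theorem NPOS_zero {H : Type} [NormedAddCommGroup H] [InnerProductSpace ℂ H] {k : ℕ}
    (T : Fin k → Fin k → H →L[ℂ] H)
    (h : ∀ ξ : Fin k → H, ∑ i, ∑ j, inner ℂ (ξ i) (T i j (ξ j)) = 0) : ∀ i j, T i j = 0 := by
  classical
  let L : PiLp 2 (fun _ : Fin k => H) →ₗ[ℂ] PiLp 2 (fun _ : Fin k => H) :=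
    { toFun := fun ξ => WithLp.toLp 2 (fun i => ∑ j, T i j (ξ j))
      map_add' := by
        intro ξ η
        ext i
        simp [Finset.sum_add_distrib]
      map_smul' := by
        intro c ξ
        ext i
        simp [Finset.smul_sum] }
  have hL : L = 0 := by
    rw [← inner_map_self_eq_zero]
    intro ξ
    have h1 := h (fun i => ξ i)
    have h2 : inner ℂ ξ (L ξ) = 0 := by
      rw [PiLp.inner_apply]
      simp only [L, LinearMap.coe_mk, AddHom.coe_mk, inner_sum]
      exact h1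
    rw [← inner_conj_symm, h2, map_zero]
  intro i j
  ext v
  have h3 : L (WithLp.toLp 2 (Pi.single j v)) i = 0 := by rw [hL]; rfl
  simp only [L, LinearMap.coe_mk, AddHom.coe_mk] at h3
  rw [Finset.sum_eq_single j] at h3
  · simpa using h3
  · intro b _ hb
    simp [Pi.single_eq_of_ne hb]
  · simp

theorem NPOS_abs {M : Type} [CStarAlgebra M] [PartialOrder M] [StarOrderedRing M] (P : M)
    (hP : IsSelfAdjoint P)
    (h : ∀ N R : M, star N = N → N * P * N = -(star (R * N) * (R * N)) → R * N = 0) :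
    ∃ S : M, P = star S * S := by
  obtain ⟨R, hR⟩ := CStarAlgebra.nonneg_iff_eq_star_mul_self.1 (CFC.negPart_nonneg P)
  have hN : star (P⁻) = P⁻ := (IsSelfAdjoint.of_nonneg (CFC.negPart_nonneg P)).star_eq
  have h1 : P * P⁻ = - (P⁻ * P⁻) := by
    have h2 : (P⁺ - P⁻) * P⁻ = - (P⁻ * P⁻) := by
      rw [sub_mul, CFC.posPart_mul_negPart, zero_sub]
    rwa [CFC.posPart_sub_negPart P hP] at h2
  have hNPN : P⁻ * P * P⁻ = - (star (R * P⁻) * (R * P⁻)) := by
    have h3 : star (R * P⁻) * (R * P⁻) = P⁻ * (star R * R) * P⁻ := by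
      rw [star_mul, hN]
      simp only [mul_assoc]
    rw [h3, ← hR, mul_assoc, h1, mul_neg, mul_assoc]
  have h4 := h _ _ hN hNPN
  have h5 : star (P⁻) * P⁻ = 0 := by
    rw [hN]
    nth_rewrite 1 [hR]
    rw [mul_assoc, h4, mul_zero]
  have h6 : P⁻ = 0 := (CStarRing.star_mul_self_eq_zero_iff _).1 h5
  have h7 : 0 ≤ P := (CFC.negPart_eq_zero_iff P hP).1 h6
  exact CStarAlgebra.nonneg_iff_eq_star_mul_self.1 h7

theorem NPOS_comm {k : ℕ} (F : Fin k → Fin k → Fin k → Fin k → ℂ) :
    ∑ i, ∑ j, ∑ b, ∑ a, F a b i j = ∑ a, ∑ b, ∑ i, ∑ j, F a b i j := by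
  calc ∑ i, ∑ j, ∑ b, ∑ a, F a b i j = ∑ i, ∑ j, ∑ a, ∑ b, F a b i j :=
        Finset.sum_congr rfl fun i _ => Finset.sum_congr rfl fun j _ => Finset.sum_comm
    _ = ∑ i, ∑ a, ∑ j, ∑ b, F a b i j :=
        Finset.sum_congr rfl fun i _ => Finset.sum_comm
    _ = ∑ a, ∑ i, ∑ j, ∑ b, F a b i j := Finset.sum_comm
    _ = ∑ a, ∑ i, ∑ b, ∑ j, F a b i j :=
        Finset.sum_congr rfl fun i _ => Finset.sum_congr rfl fun j _ => Finset.sum_comm
    _ = ∑ a, ∑ b, ∑ i, ∑ j, F a b i j :=
        Finset.sum_congr rfl fun i _ => Finset.sum_comm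

theorem NPOS_quad {A : Type} [CStarAlgebra A] {H : Type} [NormedAddCommGroup H]
    [InnerProductSpace ℂ H] [CompleteSpace H] (π : A →⋆ₐ[ℂ] (H →L[ℂ] H)) {k : ℕ}
    (T Q : Fin k → Fin k → A) (ξ : Fin k → H) :
    ∑ i, ∑ j, inner ℂ (ξ i) (π (∑ b, (∑ a, star (T a i) * Q a b) * T b j) (ξ j)) =
      ∑ a, ∑ b, inner ℂ (∑ i, π (T a i) (ξ i)) (π (Q a b) (∑ j, π (T b j) (ξ j))) := by
  have h1 : ∀ i j, inner ℂ (ξ i) (π (∑ b, (∑ a, star (T a i) * Q a b) * T b j) (ξ j)) =
      ∑ b, ∑ a, inner ℂ (π (T a i) (ξ i)) (π (Q a b) (π (T b j) (ξ j))) := by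
    intro i j
    simp only [map_sum, map_mul, map_star, sum_apply, inner_sum, Finset.sum_mul]
    refine Finset.sum_congr rfl fun b _ => Finset.sum_congr rfl fun a _ => ?_
    change inner ℂ (ξ i) ((ContinuousLinearMap.adjoint (π (T a i)))
      ((π (Q a b)) ((π (T b j)) (ξ j)))) = _
    rw [ContinuousLinearMap.adjoint_inner_right]
  have h2 : ∀ a b, inner ℂ (∑ i, π (T a i) (ξ i)) (π (Q a b) (∑ j, π (T b j) (ξ j))) =
      ∑ i, ∑ j, inner ℂ (π (T a i) (ξ i)) (π (Q a b) (π (T b j) (ξ j))) := by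
    intro a b
    rw [map_sum, sum_inner]
    exact Finset.sum_congr rfl fun i _ => inner_sum _ _ _
  simp only [h1, h2]
  exact NPOS_comm fun a b i j => inner ℂ (π (T a i) (ξ i)) (π (Q a b) (π (T b j) (ξ j)))

theorem NPOS_gen {A : Type} [CStarAlgebra A] {H : Type} [NormedAddCommGroup H]
    [InnerProductSpace ℂ H] [CompleteSpace H] {X : Type}
    (π : X → A →⋆ₐ[ℂ] (H →L[ℂ] H)) (hπ : ∀ a : A, (∀ x, π x a = 0) → a = 0)
    (k : ℕ) (p : Fin k → Fin k → A)
    (hp : ∀ (x : X) (ξ : Fin k → H), ∃ r : ℝ, 0 ≤ r ∧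
      ∑ i, ∑ j, inner ℂ (ξ i) (π x (p i j) (ξ j)) = (r : ℂ)) :
    ∃ C : Fin k → Fin k → A, ∀ i j, p i j = ∑ l, star (C l i) * C l j := by
  classical
  let : PartialOrder A := CStarAlgebra.spectralOrder A
  have : StarOrderedRing A := CStarAlgebra.spectralOrderedRing A
  let P : CStarMatrix (Fin k) (Fin k) A := CStarMatrix.ofMatrix (fun i j => p i j)
  have hPa : ∀ i j, P i j = p i j := fun i j => rfl
  -- self-adjoint
  have hPs : IsSelfAdjoint P := by
    rw [IsSelfAdjoint, CStarMatrix.ext_iff.symm]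
    intro i j
    rw [CStarMatrix.star_apply, hPa, hPa, ← sub_eq_zero]
    apply hπ
    intro x
    have := NPOS_zero (fun i j => π x (star (p j i) - p i j)) (fun ξ => by
      obtain ⟨r, -, hr⟩ := hp x ξ
      have h1 : ∑ i, ∑ j, inner ℂ (ξ i) (π x (star (p j i)) (ξ j)) = (r : ℂ) := by
        have h2 := congrArg conj hr
        rw [Complex.conj_ofReal, map_sum] at h2
        rw [← h2, Finset.sum_comm]
        refine Finset.sum_congr rfl fun i _ => ?_
        rw [map_sum]
        refine Finset.sum_congr rfl fun j _ => ?_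
        rw [inner_conj_symm, map_star, ContinuousLinearMap.star_eq_adjoint,
          ContinuousLinearMap.adjoint_inner_right]
      simp only [map_sub, sub_apply, inner_sub_right,
        Finset.sum_sub_distrib, h1, hr, sub_self]) i j
    exact this
  obtain ⟨S, hS⟩ := NPOS_abs P hPs (fun N R hN hNPN => by
    -- quadratic form of `N P N`
    have hNs : ∀ i j, star (N i j) = N j i := by
      intro i j
      conv_rhs => rw [← hN]
      rw [CStarMatrix.star_apply]
    have key : ∀ (x : X) (ξ : Fin k → H) (l : Fin k),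
        ∑ j, π x ((R * N) l j) (ξ j) = 0 := by
      intro x ξ l
      obtain ⟨r, hr0, hr⟩ := hp x (fun a => ∑ j, π x (N a j) (ξ j))
      have e1 : ∑ i, ∑ j, inner ℂ (ξ i) (π x ((N * P * N) i j) (ξ j)) = (r : ℂ) := by
        rw [← hr]
        refine Eq.trans ?_ (NPOS_quad (π x) (fun a b => N a b) (fun a b => p a b) ξ)
        simp only [CStarMatrix.mul_apply, hNs, hPa]
      have e2 : ∑ i, ∑ j, inner ℂ (ξ i) (π x ((star (R * N) * (R * N)) i j) (ξ j)) =
          ((∑ l, ‖∑ j, π x ((R * N) l j) (ξ j)‖ ^ 2 : ℝ) : ℂ) := by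
        have q := NPOS_quad (π x) (fun a b => (R * N) a b)
          (fun a b => if a = b then 1 else 0) ξ
        have q1 : ∀ i j, (star (R * N) * (R * N)) i j =
            ∑ b, (∑ a, star ((R * N) a i) * (if a = b then 1 else 0)) * (R * N) b j := by
          intro i j
          rw [CStarMatrix.mul_apply]
          refine Finset.sum_congr rfl fun b _ => ?_
          simp [CStarMatrix.star_apply]
        simp only [q1]
        rw [q]
        push_cast
        refine Finset.sum_congr rfl fun a _ => ?_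
        rw [Finset.sum_eq_single a]
        · simp
        · intro b _ hb
          simp [hb.symm]
        · simp
      have e3 : (r : ℂ) = -((∑ l, ‖∑ j, π x ((R * N) l j) (ξ j)‖ ^ 2 : ℝ) : ℂ) := by
        rw [← e1, ← e2, hNPN]
        simp only [CStarMatrix.neg_apply, map_neg, neg_apply, inner_neg_right,
          Finset.sum_neg_distrib]
      have e4 : r = -(∑ l, ‖∑ j, π x ((R * N) l j) (ξ j)‖ ^ 2) := by exact_mod_cast e3
      have e5 : ∑ l, ‖∑ j, π x ((R * N) l j) (ξ j)‖ ^ 2 = 0 := by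
        have : 0 ≤ ∑ l, ‖∑ j, π x ((R * N) l j) (ξ j)‖ ^ 2 :=
          Finset.sum_nonneg fun l _ => by positivity
        linarith
      have e6 := (Finset.sum_eq_zero_iff_of_nonneg
        (fun l _ => by positivity)).1 e5 l (Finset.mem_univ l)
      simpa using e6
    rw [← CStarMatrix.ext_iff]
    intro l j
    rw [CStarMatrix.zero_apply]
    apply hπ
    intro x
    ext v
    have h3 := key x (Pi.single j v) l
    rw [Finset.sum_eq_single j] at h3
    · simpa using h3
    · intro b _ hb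
      simp [Pi.single_eq_of_ne hb]
    · simp)
  refine ⟨fun i j => S i j, fun i j => ?_⟩
  have h8 := congrArg (fun Q : CStarMatrix (Fin k) (Fin k) A => Q i j) hS
  simpa [CStarMatrix.mul_apply, CStarMatrix.star_apply, hPa] using h8

theorem sNpos : SNpos := by
  intro k p hp
  have hstar : ∀ (x : SS) (a : AA), ((star a : AA) : BB) x = star ((a : BB) x) := fun x a => rfl
  let π : SS → AA →⋆ₐ[ℂ] (HH →L[ℂ] HH) := fun x =>
    { toFun := fun a => (a : BB) x
      map_one' := rfl
      map_mul' := fun _ _ => rfl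
      map_zero' := rfl
      map_add' := fun _ _ => rfl
      commutes' := fun _ => rfl
      map_star' := fun _ => rfl }
  exact NPOS_gen π (fun a ha => by
    apply Subtype.ext
    ext1 x
    exact ha x) k p hp

end Pool.OPP
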